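import Pool.Agent.U259.UB.Fin

/-!
# Growth
-/

set_option autoImplicit false
set_option linter.unusedSectionVars false

open scoped Classical BigOperators

noncomputable section

namespace Pool.Agent.U259.UB

open Pool.Agent.N85.WM (Wr)

variable {p : ℕ} [hp : Fact p.Prime] {F : Type} [Field F] [IsAlgClosed F]
  [CharP F p] (red : integralClosure ℤ ℂ →+* F) {X : ∀ (G : Type) [Group G], Prop}

/-- both signs occur -/
theorem low_sgn (hw : ∀ (G : Type) [Group G] [Finite G], X G → X (Wr p G)) {N : ℕ} {s : ℤ}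
    (h : Low p red X N s) (hs : s ≠ 0) {σ : ℤ} (hσ : σ = 1 ∨ σ = -1) :
    ∃ (N' : ℕ) (s' : ℤ), Low p red X N' s' ∧ 1 ≤ σ * s' := by
  have hp2 : (2 : ℤ) ≤ p := by exact_mod_cast hp.out.two_le
  by_cases h1 : 1 ≤ σ * s
  · exact ⟨N, s, h, h1⟩
  · refine ⟨_, _, low_wr red hw h, ?_⟩
    rcases hσ with rfl | rfl
    · have h2 : s ≤ -1 := by omega
      nlinarith
    · have h2 : 1 ≤ s := by omega
      nlinarith

/-- a block with lowest coefficient at least two -/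
theorem low_two (hw : ∀ (G : Type) [Group G] [Finite G], X G → X (Wr p G)) {N : ℕ} {s : ℤ}
    (h : Low p red X N s) (hs : s ≠ 0) :
    ∃ (N' : ℕ) (s' : ℤ), Low p red X N' s' ∧ 2 ≤ s' ∧ 2 ≤ N' := by
  have hp2 : (2 : ℤ) ≤ p := by exact_mod_cast hp.out.two_le
  obtain ⟨N', s', h1, h2⟩ := low_sgn red hw h hs (σ := -1) (Or.inr rfl)
  refine ⟨_, _, low_wr red hw h1, by nlinarith, ?_⟩
  have h3 := low_pos red h1
  have h4 : 1 ≤ N' ^ p := Nat.one_le_pow _ _ h3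
  have h5 := hp.out.two_le
  nlinarith

/-- no one-sided bounds of order `o(log |G|)` -/
theorem no_log (hw : ∀ (G : Type) [Group G] [Finite G], X G → X (Wr p G)) {N : ℕ} {s : ℤ}
    (h : Low p red X N s) (hs : s ≠ 0) {σ : ℤ} (hσ : σ = 1 ∨ σ = -1)
    (hb : ∀ ε : ℝ, 0 < ε → ∃ c : ℝ, ∀ (N' : ℕ) (s' : ℤ), Low p red X N' s' → s' ≠ 0 →
      ((σ * s' : ℤ) : ℝ) ≤ c + ε * Real.log N') : False := by
  have hp2 : 2 ≤ p := hp.out.two_le
  have hp1 : (1 : ℝ) < p := by exact_mod_cast hp.out.one_lt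
  have hN := low_pos red h
  have hNp : (1 : ℝ) < N * p := by
    have h1 : 1 < N * p := by nlinarith
    exact_mod_cast h1
  have hL : 0 < Real.log (N * p) := Real.log_pos hNp
  have hsa : (0 : ℝ) < |(s : ℝ)| := abs_pos.2 (by exact_mod_cast hs)
  have hsa1 : (1 : ℝ) ≤ |(s : ℝ)| := by
    have h1 : 1 ≤ |s| := Int.one_le_abs hs
    exact_mod_cast h1
  obtain ⟨c, hc⟩ := hb (|(s : ℝ)| / (2 * Real.log (N * p))) (by positivity)
  obtain ⟨j, hj⟩ := pow_unbounded_of_one_lt (2 * |c|) hp1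
  -- a good exponent
  obtain ⟨i, hi, hpos⟩ : ∃ i, j ≤ i ∧ 0 < σ * ((-(p : ℤ)) ^ i * s) := by
    by_cases h1 : 0 < σ * ((-(p : ℤ)) ^ j * s)
    · exact ⟨j, le_rfl, h1⟩
    · refine ⟨j + 1, Nat.le_succ j, ?_⟩
      have h2 : σ * ((-(p : ℤ)) ^ j * s) ≠ 0 := by
        refine mul_ne_zero ?_ (mul_ne_zero (pow_ne_zero _ ?_) hs)
        · rcases hσ with rfl | rfl <;> norm_num
        · exact neg_ne_zero.2 (by exact_mod_cast hp.out.ne_zero)
      have h3 : σ * ((-(p : ℤ)) ^ j * s) < 0 := lt_of_le_of_ne (not_lt.1 h1) h2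
      have h4 : σ * ((-(p : ℤ)) ^ (j + 1) * s) = -(p : ℤ) * (σ * ((-(p : ℤ)) ^ j * s)) := by
        rw [pow_succ]
        ring
      rw [h4]
      have h5 : (0 : ℤ) < p := by exact_mod_cast hp.out.pos
      nlinarith
  obtain ⟨N', h1, h2⟩ := low_iter red hw h i
  have h3 : (-(p : ℤ)) ^ i * s ≠ 0 := by
    intro h4
    rw [h4, mul_zero] at hpos
    exact lt_irrefl _ hpos
  have h4 := hc N' _ h1 h3
  have h5 : ((σ * ((-(p : ℤ)) ^ i * s) : ℤ) : ℝ) = (p : ℝ) ^ i * |(s : ℝ)| := by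
    have h6 : |σ * ((-(p : ℤ)) ^ i * s)| = (p : ℤ) ^ i * |s| := by
      rw [abs_mul, abs_mul, abs_pow, abs_neg, Nat.abs_cast]
      rcases hσ with rfl | rfl <;> simp
    rw [abs_of_pos hpos] at h6
    rw [h6]
    push_cast
    rfl
  have hN' := low_pos red h1
  have h6 : Real.log N' ≤ (p : ℝ) ^ i * Real.log (N * p) := by
    have h7 : (N' : ℝ) ≤ ((N : ℝ) * p) ^ p ^ i := by
      have h8 : N' ≤ (N * p) ^ p ^ i := le_trans (Nat.le_mul_of_pos_right _ hp.out.pos) h2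
      exact_mod_cast h8
    have h8 := Real.log_le_log (by exact_mod_cast hN') h7
    rw [Real.log_pow] at h8
    push_cast at h8
    exact h8
  rw [h5] at h4
  have h7 : |(s : ℝ)| / (2 * Real.log (N * p)) * Real.log N' ≤ (p : ℝ) ^ i * |(s : ℝ)| / 2 := by
    calc |(s : ℝ)| / (2 * Real.log (N * p)) * Real.log N' ≤
        |(s : ℝ)| / (2 * Real.log (N * p)) * ((p : ℝ) ^ i * Real.log (N * p)) :=
          mul_le_mul_of_nonneg_left h6 (by positivity)
      _ = (p : ℝ) ^ i * |(s : ℝ)| / 2 := by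
          field_simp
  have h8 : (p : ℝ) ^ j ≤ (p : ℝ) ^ i := pow_le_pow_right₀ hp1.le hi
  have h9 : (p : ℝ) ^ i ≤ (p : ℝ) ^ i * |(s : ℝ)| := by
    have h10 : (0 : ℝ) ≤ (p : ℝ) ^ i := by positivity
    nlinarith
  have h11 := le_abs_self c
  linarith

/-- no one-sided subpolynomial bounds -/
theorem no_pow (hw : ∀ (G : Type) [Group G] [Finite G], X G → X (Wr p G))
    (hm : ∀ (G H : Type) [Group G] [Group H] [Finite G] [Finite H], X G → X H → X (G × H))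
    {N : ℕ} {s : ℤ} (h : Low p red X N s) (hs : s ≠ 0) {σ : ℤ} (hσ : σ = 1 ∨ σ = -1)
    (hb : ∀ ε : ℝ, 0 < ε → ∃ c : ℝ, ∀ (N' : ℕ) (s' : ℤ), Low p red X N' s' → s' ≠ 0 →
      ((σ * s' : ℤ) : ℝ) ≤ c * (N' : ℝ) ^ ε) : False := by
  obtain ⟨N1, s1, h1, h2⟩ := low_sgn red hw h hs hσ
  obtain ⟨N2, s2, h3, h4, h5⟩ := low_two red hw h hs
  have hN1 := low_pos red h1
  have hN2 : (1 : ℝ) < N2 := by
    have : 1 < N2 := by omega
    exact_mod_cast this
  have hL : 0 < Real.log N2 := Real.log_pos hN2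
  have h32 : (0 : ℝ) < Real.log (3 / 2) := Real.log_pos (by norm_num)
  obtain ⟨c, hc⟩ := hb (Real.log (3 / 2) / Real.log N2) (by positivity)
  have e1 : (N2 : ℝ) ^ (Real.log (3 / 2) / Real.log N2) = 3 / 2 := by
    rw [Real.rpow_def_of_pos (by linarith), mul_div_cancel₀ _ hL.ne', Real.exp_log (by norm_num)]
  have key : ∀ m : ℕ, (4 / 3 : ℝ) ^ (m + 1) ≤
      |c| * (N1 : ℝ) ^ (Real.log (3 / 2) / Real.log N2) := by
    intro m
    have h6 := low_prod red hm h1 (low_pow red hm h3 m)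
    have h7 : s1 * s2 ^ (m + 1) ≠ 0 := by
      refine mul_ne_zero ?_ (pow_ne_zero _ (by omega))
      rintro rfl
      rw [mul_zero] at h2
      omega
    have h8 := hc _ _ h6 h7
    have h9 : (2 : ℝ) ^ (m + 1) ≤ ((σ * (s1 * s2 ^ (m + 1)) : ℤ) : ℝ) := by
      have h10 : (2 : ℤ) ^ (m + 1) ≤ σ * (s1 * s2 ^ (m + 1)) := by
        have h11 : (2 : ℤ) ^ (m + 1) ≤ s2 ^ (m + 1) := pow_le_pow_left₀ (by norm_num) h4 _
        have h12 : (0 : ℤ) < 2 ^ (m + 1) := by positivity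
        calc (2 : ℤ) ^ (m + 1) ≤ s2 ^ (m + 1) := h11
          _ = 1 * s2 ^ (m + 1) := (one_mul _).symm
          _ ≤ (σ * s1) * s2 ^ (m + 1) := mul_le_mul_of_nonneg_right h2 (by linarith)
          _ = σ * (s1 * s2 ^ (m + 1)) := by ring
      exact_mod_cast h10
    have e2 : ((N1 * N2 ^ (m + 1) : ℕ) : ℝ) ^ (Real.log (3 / 2) / Real.log N2) =
        (N1 : ℝ) ^ (Real.log (3 / 2) / Real.log N2) * (3 / 2) ^ (m + 1) := by
      push_cast
      rw [Real.mul_rpow (by positivity) (by positivity), ← Real.rpow_natCast (N2 : ℝ),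
        ← Real.rpow_mul (by positivity), mul_comm ((m + 1 : ℕ) : ℝ), Real.rpow_mul (by positivity),
        e1, Real.rpow_natCast]
    rw [e2] at h8
    have h13 : (0 : ℝ) < (3 / 2) ^ (m + 1) := by positivity
    have h14 : (0 : ℝ) < (N1 : ℝ) ^ (Real.log (3 / 2) / Real.log N2) :=
      Real.rpow_pos_of_pos (by exact_mod_cast hN1) _
    have h15 : (4 / 3 : ℝ) ^ (m + 1) * (3 / 2) ^ (m + 1) = 2 ^ (m + 1) := by
      rw [← mul_pow]
      norm_num
    have h16 : c * ((N1 : ℝ) ^ (Real.log (3 / 2) / Real.log N2) * (3 / 2) ^ (m + 1)) ≤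
        (|c| * (N1 : ℝ) ^ (Real.log (3 / 2) / Real.log N2)) * (3 / 2) ^ (m + 1) := by
      rw [← mul_assoc]
      exact mul_le_mul_of_nonneg_right (mul_le_mul_of_nonneg_right (le_abs_self c) h14.le) h13.le
    have h17 : (4 / 3 : ℝ) ^ (m + 1) * (3 / 2) ^ (m + 1) ≤
        (|c| * (N1 : ℝ) ^ (Real.log (3 / 2) / Real.log N2)) * (3 / 2) ^ (m + 1) := by
      rw [h15]
      linarith
    exact le_of_mul_le_mul_right h17 h13
  obtain ⟨m, hm'⟩ := pow_unbounded_of_one_lt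
    (|c| * (N1 : ℝ) ^ (Real.log (3 / 2) / Real.log N2)) (show (1 : ℝ) < 4 / 3 by norm_num)
  have h18 := key m
  have h19 : (4 / 3 : ℝ) ^ m ≤ (4 / 3 : ℝ) ^ (m + 1) :=
    pow_le_pow_right₀ (by norm_num) (Nat.le_succ m)
  linarith

end Pool.Agent.U259.UB
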