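import Pool.Agent.U259.UB.Low

/-!
# One-sided bounds for Dade's alternating sums
-/

set_option autoImplicit false
set_option linter.unusedSectionVars false

open scoped Classical BigOperators

noncomputable section

namespace Pool.Agent.U259.UB

open Pool.Agent.Y63.NV
open Pool.Agent.Y63.AWC (IsIrreducibleCharacter)
open Pool.Agent.N85.WM (Wr wrF BEq IsIdem card_wr wrF_inZ)
open Pool.Agent.U259.WP (Sep NoDz Op1 exists_sep noDz_of numDz_of)
open Pool.Agent.U259.WD (gf rhs series gf_prod SBd sbd_sep sbd_zero sd_zero' noDz_wr)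
open Pool.Agent.U259.WQ (gp gp_coe)

variable {p : ℕ} [hp : Fact p.Prime] {F : Type} [Field F] [IsAlgClosed F]
  [CharP F p] (red : integralClosure ℤ ℂ →+* F)

/-- there is a group of order `N` in `X` and a block with lowest coefficient `s` -/
def Low (p : ℕ) {F : Type} [Field F] (red : integralClosure ℤ ℂ →+* F)
    (X : ∀ (G : Type) [Group G], Prop) (N : ℕ) (s : ℤ) : Prop :=
  ∃ (G : Type) (_ : Group G) (_ : Finite G), X G ∧ Nat.card G = N ∧
    ∃ (B : (G → F) → F) (e : G → F), IsBlock B ∧ Sep B e ∧ NoDz p red e ∧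
      ∃ d, 2 ≤ d ∧ Fst (gf p red G e) d s

variable {X : ∀ (G : Type) [Group G], Prop}

theorem low_pos {N : ℕ} {s : ℤ} (h : Low p red X N s) : 0 < N := by
  obtain ⟨G, _, _, -, rfl, -⟩ := h
  exact Nat.card_pos

theorem low_wr (hw : ∀ (G : Type) [Group G] [Finite G], X G → X (Wr p G)) {N : ℕ} {s : ℤ}
    (h : Low p red X N s) : Low p red X (N ^ p * p) (-(p : ℤ) * s) := by
  have : NeZero p := ⟨hp.out.ne_zero⟩
  obtain ⟨G, _, _, hG, rfl, B, e, hB, hs, hno, d, hd, hF⟩ := h
  obtain ⟨B', hB', hs'⟩ := exists_sep_wr (p := p) (q := p) red hs hB (Or.inl rfl)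
  refine ⟨Wr p G, inferInstance, inferInstance, hw G hG, ?_, B', wrF p e, hB', hs',
    noDz_wr (q := p) red hs.1 hno, d + 1, by omega,
    fst_step hp.out hd (series (p := p) (q := p) red hs.1) hF⟩
  rw [SemidirectProduct.card, Nat.card_fun, Nat.card_zmod, Nat.card_congr Multiplicative.toAdd,
    Nat.card_zmod]

theorem low_prod (hm : ∀ (G H : Type) [Group G] [Group H] [Finite G] [Finite H],
    X G → X H → X (G × H)) {N N' : ℕ} {s s' : ℤ}
    (h : Low p red X N s) (h' : Low p red X N' s') : Low p red X (N * N') (s * s') := by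
  obtain ⟨G, _, _, hG, rfl, B, e, hB, hs, hno, d, hd, hF⟩ := h
  obtain ⟨G', _, _, hG', rfl, B', e', hB', hs', hno', d', hd', hF'⟩ := h'
  obtain ⟨B'', hB'', hs''⟩ := sep_prod red hs hB hs' hB'
  refine ⟨G × G', inferInstance, inferInstance, hm G G' hG hG', Nat.card_prod _ _, B'', _, hB'',
    hs'', noDz_prod red hs.1 hs'.1 hno, d + d', by omega, ?_⟩
  rw [gf_prod red hs.1 hs'.1.cl]
  exact fst_mul hF hF'

/-- the start -/
theorem low_init (hw : ∀ (G : Type) [Group G] [Finite G], X G → X (Wr p G)) {G : Type} [Group G]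
    [Finite G] (hG : X G) {B : (G → F) → F} (hB : IsBlock B) (hz : numDzBlock p red B = 0)
    {d : ℕ} (hd : SBd p red d B ≠ 0) : ∃ (N : ℕ) (s : ℤ), s ≠ 0 ∧ Low p red X N s := by
  have : NeZero p := ⟨hp.out.ne_zero⟩
  obtain ⟨e, hs⟩ := exists_sep hB
  have hno := noDz_of red hs hz
  obtain ⟨B', hB', hs'⟩ := exists_sep_wr (p := p) (q := p) red hs hB (Or.inl rfl)
  have h1 := series (p := p) (q := p) red hs.1
  rw [← gp_coe (p := p) red e] at h1
  have h0 : (gp p red G e).coeff 0 = 0 := by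
    rw [← Polynomial.coeff_coe, gp_coe]
    unfold Pool.Agent.U259.WD.gf
    rw [PowerSeries.coeff_mk]
    exact sd_zero' red hs.1.cl hno
  have hP : gp p red G e ≠ 0 := by
    intro h2
    apply hd
    rw [sbd_sep red hs]
    have h3 : PowerSeries.coeff d (gf p red G e) = 0 := by
      rw [← gp_coe (p := p) red e, h2]
      simp
    unfold Pool.Agent.U259.WD.gf at h3
    rwa [PowerSeries.coeff_mk] at h3
  obtain ⟨d', s, h2, h3, h4⟩ := fst_init hp.out h1 h0 hP
  exact ⟨_, s, h3, Wr p G, inferInstance, inferInstance, hw G hG, rfl, B', wrF p e, hB', hs',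
    noDz_wr (q := p) red hs.1 hno, d', h2, h4⟩

/-- from the lowest coefficient to an alternating sum -/
theorem low_out {N : ℕ} {s : ℤ} (hs0 : s ≠ 0) (h : Low p red X N s) :
    ∃ (G : Type) (_ : Group G) (_ : Finite G), X G ∧ Nat.card G = N ∧ Op1 p G ∧
      ∃ B : (G → F) → F, IsBlock B ∧ numDzBlock p red B = 0 ∧ ∃ d, SBd p red d B = s := by
  obtain ⟨G, _, _, hG, hN, B, e, hB, hs, hno, d, -, hF⟩ := h
  have h1 : SBd p red d B = s := by
    rw [sbd_sep red hs]
    have h2 := hF.2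
    unfold Pool.Agent.U259.WD.gf at h2
    rwa [PowerSeries.coeff_mk] at h2
  refine ⟨G, inferInstance, inferInstance, hG, hN, ?_, B, hB, numDz_of red hs.1.cl hs.2.1 hno, d,
    h1⟩
  by_contra ho
  exact hs0 (h1.symm.trans (sbd_zero red ho B hB d))

/-- iteration of the wreath product -/
theorem low_iter (hw : ∀ (G : Type) [Group G] [Finite G], X G → X (Wr p G)) {N : ℕ} {s : ℤ}
    (h : Low p red X N s) (j : ℕ) :
    ∃ N', Low p red X N' ((-(p : ℤ)) ^ j * s) ∧ N' * p ≤ (N * p) ^ p ^ j := by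
  induction j with
  | zero => exact ⟨N, by rwa [pow_zero, one_mul], by rw [pow_zero, pow_one]⟩
  | succ j ih =>
    obtain ⟨N', h1, h2⟩ := ih
    refine ⟨N' ^ p * p, ?_, ?_⟩
    · have h3 := low_wr red hw h1
      rwa [← mul_assoc, ← pow_succ'] at h3
    · have hp2 := hp.out.two_le
      calc N' ^ p * p * p = N' ^ p * p ^ 2 := by ring
        _ ≤ N' ^ p * p ^ p := Nat.mul_le_mul_left _ (Nat.pow_le_pow_right hp.out.pos hp2)
        _ = (N' * p) ^ p := by rw [mul_pow]
        _ ≤ ((N * p) ^ p ^ j) ^ p := Nat.pow_le_pow_left h2 p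
        _ = (N * p) ^ p ^ (j + 1) := by rw [← pow_mul, pow_succ]

/-- powers -/
theorem low_pow (hm : ∀ (G H : Type) [Group G] [Group H] [Finite G] [Finite H],
    X G → X H → X (G × H)) {N : ℕ} {s : ℤ} (h : Low p red X N s) (m : ℕ) :
    Low p red X (N ^ (m + 1)) (s ^ (m + 1)) := by
  induction m with
  | zero => rwa [zero_add, pow_one, pow_one]
  | succ m ih =>
    rw [pow_succ N, pow_succ s]
    exact low_prod red hm ih h

end Pool.Agent.U259.UB
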