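import Pool.Agent.K3h3.MK.Cnt
import Pool.Agent.U259.WD.Main

/-!
# Central characters of characters of `N ⋊ S` and of `G ≀ C_q`
-/

set_option autoImplicit false
set_option linter.unusedSectionVars false

open scoped Classical BigOperators

noncomputable section

namespace Pool.Agent.U259.UB

open Pool.Agent.Y63.NV
open Pool.Agent.Y63.AWC (IsIrreducibleCharacter)
open Pool.Agent.N85.WM.Wpi (toIrr ofIrr cv_tens)
open Pool.Agent.H254R3.IN (IsIrr IsCl)
open Pool.Agent.K3h3.KB (sInd bt sum_sd sum_sd' sInd_mk sInd_one sInd_inl)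
open Pool.Agent.Y62 (tw)
open Pool.Agent.Y930.NV (om R redC_sum redC_mul redC_intCast ind Cf Cf_ind centralValue_eq R_expand
  irr_Cf Cf_out int_intCast om_int ind_cast mk_out)
open SemidirectProduct

section gen0

variable {J : Type} [Group J] [Finite J] {F : Type} [Field F] (red : integralClosure ℤ ℂ →+* F)

theorem sum_fs {α β : Type} [AddCommMonoid β] (i : Fintype α) (f : α → β) :
    Finset.sum (@Finset.univ α i) f = ∑ᶠ a, f a := (finsum_eq_sum_of_fintype f).symm

theorem cv_fs {χ : J → ℂ} (h : IsIrreducibleCharacter χ) (f : J → F) [Fintype J] :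
    centralValue red χ f = ∑ᶠ C : ConjClasses J, f C.out * R red χ (ind ℤ C) := by
  rw [centralValue_eq red h]
  exact sum_fs _ _

theorem R_fs {χ : J → ℂ} (h : IsIrreducibleCharacter χ) [Fintype J] {n : J → ℤ} (hn : Cf n) :
    R red χ n = ∑ᶠ C : ConjClasses J, (n C.out : F) * R red χ (ind ℤ C) := by
  rw [R_expand red h hn]
  exact sum_fs _ _

end gen0

section gen

variable {N S : Type} [Group N] [Group S] [Fintype N] [Fintype S] {φ : S →* MulAut N}
  {F : Type} [Field F] (red : integralClosure ℤ ℂ →+* F)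

/-- the central character at class functions supported on `N` -/
theorem cv_of_om {χ : N ⋊[φ] S → ℂ} {Θ : N → ℂ} (hχ : IsIrreducibleCharacter χ)
    (hΘ : IsIrreducibleCharacter Θ) {y : N ⋊[φ] S → F} (hy : IsClassFun y)
    (h : ∀ C : ConjClasses (N ⋊[φ] S), y C.out ≠ 0 →
      om χ (ind ℂ C) = om Θ (fun n => ind ℂ C (inl n))) :
    centralValue red χ y = centralValue red Θ (fun n => y (inl n)) := by
  rw [cv_fs red hχ, cv_fs red hΘ]
  have _i1 : Fintype (ConjClasses (N ⋊[φ] S)) := Fintype.ofFinite _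
  have _i2 : Fintype (ConjClasses N) := Fintype.ofFinite _
  have e1 : ∀ C : ConjClasses (N ⋊[φ] S), y C.out * R red χ (ind ℤ C) =
      ∑ D : ConjClasses N, (if ConjClasses.mk (inl D.out : N ⋊[φ] S) = C then
        y (inl D.out) * R red Θ (ind ℤ D) else 0) := by
    intro C
    by_cases hC : y C.out = 0
    · rw [hC, zero_mul]
      symm
      refine Finset.sum_eq_zero fun D _ => ?_
      split_ifs with h1
      · have h5 : y C.out = y (inl D.out) := Cf_out (f := y) hy h1
        rw [← h5, hC, zero_mul]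
      · rfl
    · have h2 : Cf (fun n : N => ind ℤ C (inl n)) := by
        intro g x
        have := Cf_ind ℤ C (inl g) (inl x)
        rw [← map_mul, ← map_inv, ← map_mul] at this
        exact this
      have h3 : R red χ (ind ℤ C) = R red Θ (fun n : N => ind ℤ C (inl n)) := by
        unfold R
        rw [ind_cast, h C hC]
        congr 2
        funext n
        unfold ind
        by_cases h9 : ConjClasses.mk (inl n : N ⋊[φ] S) = C
        · simp only [h9, if_true, Int.cast_one]
        · simp only [h9, if_false, Int.cast_zero]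
      rw [h3, R_fs red hΘ h2, finsum_eq_sum_of_fintype, Finset.mul_sum]
      refine Finset.sum_congr rfl fun D _ => ?_
      unfold ind
      by_cases h4 : ConjClasses.mk (inl D.out : N ⋊[φ] S) = C
      · rw [if_pos h4, if_pos h4]
        push_cast
        rw [one_mul]
        congr 1
        exact Cf_out (f := y) hy h4
      · rw [if_neg h4, if_neg h4]
        push_cast
        rw [zero_mul, mul_zero]
  rw [finsum_eq_sum_of_fintype, finsum_eq_sum_of_fintype, Finset.sum_congr rfl fun C _ => e1 C,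
    Finset.sum_comm]
  refine Finset.sum_congr rfl fun D _ => ?_
  rw [Finset.sum_ite_eq, if_pos (Finset.mem_univ _)]

/-- induced characters -/
theorem cv_sInd {Θ : N → ℂ} (hΘ : IsIrreducibleCharacter Θ)
    (hχ : IsIrreducibleCharacter (sInd φ Θ)) {y : N ⋊[φ] S → F} (hy : IsClassFun y) :
    centralValue red (sInd φ Θ) y = centralValue red Θ (fun n => y (inl n)) := by
  refine cv_of_om red hχ hΘ hy fun C _ => ?_
  unfold om
  rw [sum_sd, sInd_one]
  have h1 : ∀ (n : N) (s : S), ind ℂ C (⟨n, s⟩ : N ⋊[φ] S) * sInd φ Θ ⟨n, s⟩ =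
      if s = 1 then (∑ t : S, ind ℂ C (inl n : N ⋊[φ] S) * Θ (φ t n)) else 0 := by
    intro n s
    rw [sInd_mk]
    by_cases hs : s = 1
    · subst hs
      rw [if_pos rfl, if_pos rfl, Finset.mul_sum]
      rfl
    · rw [if_neg hs, if_neg hs, mul_zero]
  simp_rw [h1]
  rw [sum_sd' (fun n _ => ∑ t : S, ind ℂ C (inl n : N ⋊[φ] S) * Θ (φ t n)), Finset.sum_comm]
  have h2 : ∀ t : S, ∑ n : N, ind ℂ C (inl n : N ⋊[φ] S) * Θ (φ t n) =
      ∑ n : N, ind ℂ C (inl n : N ⋊[φ] S) * Θ n := by
    intro t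
    refine Fintype.sum_equiv (φ t).toEquiv _ _ fun n => ?_
    simp only [MulEquiv.toEquiv_eq_coe, EquivLike.coe_coe]
    have h3 : ind ℂ C (inl (φ t n) : N ⋊[φ] S) = ind ℂ C (inl n) := by
      rw [inl_aut, map_inv]
      exact Cf_ind ℂ C _ _
    rw [h3]
  simp_rw [h2]
  rw [Finset.sum_const, Finset.card_univ, nsmul_eq_mul, ← Nat.card_eq_fintype_card,
    mul_div_mul_left _ _ (Pool.Agent.K3h3.KB.cardS_ne (S := S))]

/-- extensions, at the class functions supported on `N` -/
theorem cv_ext {χ : N ⋊[φ] S → ℂ} {Θ : N → ℂ} (hχ : IsIrreducibleCharacter χ)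
    (hΘ : IsIrreducibleCharacter Θ) (he : ∀ n, χ (inl n) = Θ n) {y : N ⋊[φ] S → F}
    (hy : IsClassFun y) (hs : ∀ x : N ⋊[φ] S, x.right ≠ 1 → y x = 0) :
    centralValue red χ y = centralValue red Θ (fun n => y (inl n)) := by
  refine cv_of_om red hχ hΘ hy fun C hC => ?_
  unfold om
  have h0 : χ 1 = Θ 1 := by
    rw [← he 1, map_one]
  rw [sum_sd, h0]
  congr 1
  refine Finset.sum_congr rfl fun n _ => ?_
  have hC1 : C.out.right = 1 := by
    by_contra h
    exact hC (hs _ h)
  rw [Finset.sum_eq_single (1 : S)]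
  · change ind ℂ C (inl n : N ⋊[φ] S) * χ (inl n) = _
    rw [he]
  · intro s _ hs1
    have h2 : ind ℂ C (⟨n, s⟩ : N ⋊[φ] S) = 0 := by
      unfold ind
      rw [if_neg]
      intro h3
      have h4 : ConjClasses.mk (⟨n, s⟩ : N ⋊[φ] S) = ConjClasses.mk C.out := by rw [h3, mk_out]
      rw [ConjClasses.mk_eq_mk_iff_isConj, isConj_iff] at h4
      obtain ⟨c, hc⟩ := h4
      have h5 := congrArg (fun z : N ⋊[φ] S => z.right) hc
      simp only [mul_right, inv_right] at h5
      rw [hC1] at h5
      apply hs1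
      have h6 := congrArg (fun z => c.right⁻¹ * z * c.right) h5
      simpa [mul_assoc] using h6
    rw [h2, zero_mul]
  · intro h
    exact absurd (Finset.mem_univ _) h

/-- twists by characters with values in the kernel of the reduction -/
theorem cv_tw {J : Type} [Group J] [Finite J] {χ : J → ℂ} (a : J →* ℂˣ)
    (ha : ∀ x, redC red ((a x : ℂˣ) : ℂ) = 1) (hi : ∀ x, IsIntegral ℤ ((a x : ℂˣ) : ℂ))
    (hχ : IsIrreducibleCharacter χ) (hχ' : IsIrreducibleCharacter (tw a χ)) (f : J → F) :
    centralValue red (tw a χ) f = centralValue red χ f := by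
  have _f : Fintype J := Fintype.ofFinite J
  rw [cv_fs red hχ, cv_fs red hχ']
  refine finsum_congr fun C => ?_
  congr 1
  have e1 : om (tw a χ) (ind ℂ C) = ((a C.out : ℂˣ) : ℂ) * om χ (ind ℂ C) := by
    rw [Pool.Agent.Y930.NV.om_ind _ (irr_Cf hχ'), Pool.Agent.Y930.NV.om_ind _ (irr_Cf hχ)]
    unfold tw
    rw [map_one]
    push_cast
    ring
  unfold R
  rw [ind_cast, e1, redC_mul red (hi _) (by
    have := om_int hχ (Cf_ind ℤ C)
    rwa [ind_cast] at this), ha, one_mul]

end gen

end Pool.Agent.U259.UB
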