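import Pool.Agent.U259.UB.Prd
import Pool.Agent.U259.WQ.Tot

/-!
# The lowest coefficient of Dade's alternating sums
-/

set_option autoImplicit false
set_option linter.unusedSectionVars false

open scoped Classical BigOperators

noncomputable section

namespace Pool.Agent.U259.UB

open Pool.Agent.Y63.NV
open Pool.Agent.Y63.AWC (IsIrreducibleCharacter)
open Pool.Agent.N85.WM (Wr wrF BEq IsIdem card_wr wrF_inZ)
open Pool.Agent.U259.WP (Sep NoDz Op1 exists_sep noDz_of numDz_of)
open Pool.Agent.U259.WD (gf rhs series gf_prod SBd sbd_sep sbd_zero sd_zero' noDz_wr)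

section series

/-- the first nonzero coefficient is at `d` and equal to `s` -/
def Fst (f : PowerSeries ℤ) (d : ℕ) (s : ℤ) : Prop :=
  (∀ i < d, PowerSeries.coeff i f = 0) ∧ PowerSeries.coeff d f = s

theorem coeffX (f : PowerSeries ℤ) (d : ℕ) :
    PowerSeries.coeff d (PowerSeries.X ^ d * f) = PowerSeries.coeff 0 f := by
  have h := PowerSeries.coeff_X_pow_mul f d 0
  rwa [zero_add] at h

theorem fst_mul {f g : PowerSeries ℤ} {d d' : ℕ} {s s' : ℤ} (hf : Fst f d s) (hg : Fst g d' s') :
    Fst (f * g) (d + d') (s * s') := by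
  obtain ⟨f1, rfl⟩ := PowerSeries.X_pow_dvd_iff.2 hf.1
  obtain ⟨g1, rfl⟩ := PowerSeries.X_pow_dvd_iff.2 hg.1
  have e1 : PowerSeries.X ^ d * f1 * (PowerSeries.X ^ d' * g1) =
      PowerSeries.X ^ (d + d') * (f1 * g1) := by ring
  have h1 := hf.2
  have h2 := hg.2
  rw [coeffX] at h1 h2
  rw [e1]
  constructor
  · exact PowerSeries.X_pow_dvd_iff.1 (dvd_mul_right _ _)
  · rw [coeffX, ← h1, ← h2]
    simp

theorem coeff_pow_zero {f : PowerSeries ℤ} {d : ℕ} (hf : ∀ i < d, PowerSeries.coeff i f = 0)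
    (q : ℕ) {i : ℕ} (hi : i < d * q) : PowerSeries.coeff i (f ^ q) = 0 := by
  have h1 := PowerSeries.X_pow_dvd_iff.2 hf
  have h2 : (PowerSeries.X : PowerSeries ℤ) ^ (d * q) ∣ f ^ q := by
    rw [pow_mul]
    exact pow_dvd_pow_of_dvd h1 q
  exact PowerSeries.X_pow_dvd_iff.1 h2 i hi

/-- the coefficients of the numerator for `q = p` -/
theorem coeff_rhs {p : ℕ} (f : PowerSeries ℤ) (i : ℕ) :
    PowerSeries.coeff (i + 1) (rhs p p f) = PowerSeries.coeff (i + 1) (f ^ p) +
      (p : ℤ) ^ 2 * (if p ∣ i then PowerSeries.coeff (i / p) f else 0) -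
      (if p ∣ i + 1 then PowerSeries.coeff ((i + 1) / p) f else 0) -
      (p : ℤ) ^ 2 * PowerSeries.coeff i f := by
  unfold rhs
  rw [if_pos rfl, map_add, map_sub, sub_mul, map_sub, one_mul, PowerSeries.coeff_mk, mul_assoc,
    PowerSeries.coeff_C_mul, PowerSeries.coeff_succ_X_mul, mul_assoc,
    PowerSeries.coeff_C_mul, PowerSeries.coeff_succ_X_mul, PowerSeries.coeff_mk]
  ring

theorem coeff_rhs0 {p : ℕ} (f : PowerSeries ℤ) :
    PowerSeries.coeff 0 (rhs p p f) = PowerSeries.coeff 0 (f ^ p) -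
      PowerSeries.coeff 0 f := by
  unfold rhs
  rw [if_pos rfl, map_add, map_sub, sub_mul, map_sub, one_mul, PowerSeries.coeff_mk, mul_assoc,
    PowerSeries.coeff_C_mul, PowerSeries.coeff_zero_X_mul, mul_assoc,
    PowerSeries.coeff_C_mul, PowerSeries.coeff_zero_X_mul, if_pos (dvd_zero _), Nat.zero_div]
  ring

/-- **the lowest coefficient changes its sign** -/
theorem fst_step {p : ℕ} (hp : p.Prime) {f g : PowerSeries ℤ} {d : ℕ} {s : ℤ} (hd : 2 ≤ d)
    (h : PowerSeries.C (p : ℤ) * g = rhs p p f) (hf : Fst f d s) : Fst g (d + 1) (-(p : ℤ) * s) := by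
  have hp2 := hp.two_le
  have hp0 : (p : ℤ) ≠ 0 := by exact_mod_cast hp.ne_zero
  have hdp : d + 2 ≤ d * p := by nlinarith
  have key : ∀ i, i ≤ d → (p : ℤ) * PowerSeries.coeff (i + 1) g =
      - ((p : ℤ) ^ 2 * PowerSeries.coeff i f) := by
    intro i hi
    rw [← PowerSeries.coeff_C_mul, h, coeff_rhs, coeff_pow_zero hf.1 p (by omega)]
    have h1 : (if p ∣ i then PowerSeries.coeff (i / p) f else 0) = 0 := by
      split_ifs with h2
      · refine hf.1 _ ?_
        rw [Nat.div_lt_iff_lt_mul hp.pos]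
        omega
      · rfl
    have h2 : (if p ∣ i + 1 then PowerSeries.coeff ((i + 1) / p) f else 0) = 0 := by
      split_ifs with h2
      · refine hf.1 _ ?_
        rw [Nat.div_lt_iff_lt_mul hp.pos]
        omega
      · rfl
    rw [h1, h2]
    ring
  refine ⟨fun i hi => ?_, ?_⟩
  · cases i with
    | zero =>
      have h1 : (p : ℤ) * PowerSeries.coeff 0 g = 0 := by
        rw [← PowerSeries.coeff_C_mul, h, coeff_rhs0, coeff_pow_zero hf.1 p (by omega),
          hf.1 0 (by omega)]
        ring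
      exact (mul_eq_zero.1 h1).resolve_left hp0
    | succ i =>
      have h1 := key i (by omega)
      rw [hf.1 i (by omega), mul_zero, neg_zero] at h1
      exact (mul_eq_zero.1 h1).resolve_left hp0
  · have h1 := key d le_rfl
    rw [hf.2] at h1
    refine mul_left_cancel₀ hp0 ?_
    rw [h1]
    ring

/-- one step gives order at least two, and the result is not zero -/
theorem fst_init {p : ℕ} (hp : p.Prime) {P : Polynomial ℤ} {g : PowerSeries ℤ}
    (h : PowerSeries.C (p : ℤ) * g = rhs p p (P : PowerSeries ℤ)) (h0 : P.coeff 0 = 0)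
    (hP : P ≠ 0) : ∃ (d : ℕ) (s : ℤ), 2 ≤ d ∧ s ≠ 0 ∧ Fst g d s := by
  have hp2 := hp.two_le
  have hp0 : (p : ℤ) ≠ 0 := by exact_mod_cast hp.ne_zero
  have hD : 1 ≤ P.natDegree := by
    by_contra h1
    apply hP
    have h2 : P.natDegree = 0 := by omega
    rw [Polynomial.eq_C_of_natDegree_eq_zero h2, h0, map_zero]
  have hc : ∀ i, PowerSeries.coeff i (P : PowerSeries ℤ) = P.coeff i := fun i =>
    Polynomial.coeff_coe P i
  have h1 : (p : ℤ) * PowerSeries.coeff (p * P.natDegree + 1) g =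
      (p : ℤ) ^ 2 * P.leadingCoeff := by
    rw [← PowerSeries.coeff_C_mul, h, coeff_rhs, hc, hc, hc, ← Polynomial.coe_pow,
      Polynomial.coeff_coe, Polynomial.coeff_eq_zero_of_natDegree_lt, if_pos (dvd_mul_right _ _),
      Nat.mul_div_cancel_left _ hp.pos, if_neg, Polynomial.coeff_eq_zero_of_natDegree_lt
        (n := p * P.natDegree)]
    · unfold Polynomial.leadingCoeff
      ring
    · nlinarith
    · intro h2
      have h3 : p ∣ 1 := (Nat.dvd_add_right (dvd_mul_right p P.natDegree)).1 h2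
      exact hp.one_lt.ne' (Nat.dvd_one.1 h3)
    · refine lt_of_le_of_lt (Polynomial.natDegree_pow_le) ?_
      omega
  have hne : g ≠ 0 := by
    intro h2
    rw [h2, map_zero, mul_zero] at h1
    exact mul_ne_zero (pow_ne_zero 2 hp0) (Polynomial.leadingCoeff_ne_zero.2 hP) h1.symm
  have hex : ∃ n, PowerSeries.coeff n g ≠ 0 := by
    by_contra h2
    push Not at h2
    exact hne (PowerSeries.ext fun n => by rw [h2 n, map_zero])
  refine ⟨Nat.find hex, _, ?_, Nat.find_spec hex, fun i hi => ?_, rfl⟩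
  · by_contra h2
    have h3 : Nat.find hex = 0 ∨ Nat.find hex = 1 := by omega
    have hv : ∀ i < 1, PowerSeries.coeff i (P : PowerSeries ℤ) = 0 := by
      intro i hi
      have : i = 0 := by omega
      subst this
      rw [hc, h0]
    rcases h3 with h3 | h3
    · apply Nat.find_spec hex
      rw [h3]
      have h4 : (p : ℤ) * PowerSeries.coeff 0 g = 0 := by
        rw [← PowerSeries.coeff_C_mul, h, coeff_rhs0, coeff_pow_zero hv p (by omega), hc, h0]
        ring
      exact (mul_eq_zero.1 h4).resolve_left hp0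
    · apply Nat.find_spec hex
      rw [h3]
      have h4 : (p : ℤ) * PowerSeries.coeff (0 + 1) g = 0 := by
        have h5 : ¬ p ∣ 0 + 1 := by
          intro h5
          exact hp.one_lt.ne' (Nat.dvd_one.1 (by simpa using h5))
        rw [← PowerSeries.coeff_C_mul, h, coeff_rhs, coeff_pow_zero hv p (by omega), if_neg h5,
          if_pos (dvd_zero _), Nat.zero_div, hc, h0]
        ring
      exact (mul_eq_zero.1 h4).resolve_left hp0
  · by_contra h2
    exact Nat.find_min hex hi h2

end series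

end Pool.Agent.U259.UB
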