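import Pool.Agent.U259.UB.Uniq

/-!
# Uniqueness of the block of `G ≀ C_q` over a block of `G`
-/

set_option autoImplicit false
set_option linter.unusedSectionVars false

open scoped Classical BigOperators

noncomputable section

namespace Pool.Agent.U259.UB

open Pool.Agent.Y63.NV
open Pool.Agent.Y63.NV.B286 (conv_class single_class)
open Pool.Agent.Y63.AWC (IsIrreducibleCharacter)
open Pool.Agent.N85.WM (Wr shiftHom wrF wrF_inZ BEq IsIdem cl_add cl_smul)
open Pool.Agent.N85.WM.Wpi (toIrr ofIrr cv_tens)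
open Pool.Agent.H254R3.IN (IsIrr IsCl)
open Pool.Agent.K3h3.KB (sInd bt sInd_mk sInd_one sInd_inl sInd_irr bt_irr bt_inj)
open Pool.Agent.K3h3.MK (Good good_wr cover_sd ex ex_irr ex_inl lam rAct cst bt_rAct)
open Pool.Agent.Y62 (tw tw_irr)
open Pool.Agent.Y930.NV (om R redC_sum redC_mul redC_intCast redC_zero ind Cf Cf_ind Cf_out mk_out
  ind_cast)
open Pool.Agent.U259.WP (Sep)
open SemidirectProduct

section pow

variable {F : Type} [Field F] {J : Type} [Group J]

/-- the powers for the convolution -/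
def cpw (z : J → F) : ℕ → J → F
  | 0 => Pi.single 1 1
  | n + 1 => conv z (cpw z n)

theorem cpw_cl {z : J → F} (hz : IsClassFun z) (n : ℕ) : IsClassFun (cpw z n) := by
  induction n with
  | zero => exact single_class
  | succ n ih => exact conv_class hz ih

theorem blk_cpw {B : (J → F) → F} (hB : IsBlock B) {z : J → F} (hz : IsClassFun z) (n : ℕ) :
    B (cpw z n) = B z ^ n := by
  induction n with
  | zero => rw [pow_zero]; exact hB.one
  | succ n ih =>
    change B (conv z (cpw z n)) = _
    rw [hB.mul _ _ hz (cpw_cl hz n), ih, pow_succ']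

/-- the support of the powers -/
theorem cpw_supp {A : Type} [Group A] (f : J →* A) {z : J → F} {t : A}
    (hz : ∀ x, f x ≠ t → z x = 0) (n : ℕ) (x : J) (hx : f x ≠ t ^ n) : cpw z n x = 0 := by
  induction n generalizing x with
  | zero =>
    change (Pi.single 1 1 : J → F) x = 0
    rw [Pi.single_apply, if_neg]
    rintro rfl
    exact hx (by rw [map_one, pow_zero])
  | succ n ih =>
    change conv z (cpw z n) x = 0
    unfold conv
    refine finsum_eq_zero_of_forall_eq_zero fun y => ?_
    by_cases hy : f y = t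
    · rw [ih (y⁻¹ * x) ?_, mul_zero]
      intro h
      apply hx
      rw [map_mul, map_inv, hy] at h
      rw [pow_succ', ← h, mul_inv_cancel_left]
    · rw [hz y hy, zero_mul]

end pow

section uniq

variable {q : ℕ} [hq : Fact q.Prime] {G : Type} [Group G] [Fintype G] {F : Type} [Field F]
  (red : integralClosure ℤ ℂ →+* F) {B : (G → F) → F} {e : G → F}

/-- characters vanishing outside of the base group -/
theorem cv_van {J : Type} [Group J] [Finite J] {χ : J → ℂ}
    {z : J → F} (h : ∀ x, z x ≠ 0 → χ x = 0) : centralValue red χ z = 0 := by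
  unfold centralValue
  refine finsum_eq_zero_of_forall_eq_zero fun C => ?_
  by_cases hC : z C.out = 0
  · rw [hC, zero_mul]
  · rw [h _ hC, mul_zero, zero_div, redC_zero, mul_zero]

/-- the part of `f` on a coset of the base group -/
def part (f : Wr q G → F) (t : Multiplicative (ZMod q)) : Wr q G → F :=
  fun x => if x.right = t then f x else 0

theorem part_cl {f : Wr q G → F} (hf : IsClassFun f) (t : Multiplicative (ZMod q)) :
    IsClassFun (part f t) := by
  intro g x
  unfold part
  have hr : (g * x * g⁻¹).right = x.right := by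
    simp only [mul_right, inv_right]
    rw [mul_comm g.right, mul_assoc, mul_inv_cancel, mul_one]
  rw [hr, hf g x]

theorem part_sum [NeZero q] (f : Wr q G → F) : f = ∑ t, part f t := by
  funext x
  rw [Finset.sum_apply, Finset.sum_eq_single x.right]
  · unfold part
    rw [if_pos rfl]
  · intro t _ ht
    unfold part
    rw [if_neg fun h => ht h.symm]
  · intro h
    exact absurd (Finset.mem_univ _) h

/-- the parts outside of the base group are in the kernel of the blocks over `e ⊗ ⋯ ⊗ e` -/
theorem part_zero [NeZero q] (hs : Sep B e) {θ₁ θ₂ : G → ℂ} (h1 : IsIrreducibleCharacter θ₁)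
    (h2 : IsIrreducibleCharacter θ₂) (hne : θ₁ ≠ θ₂) (e1 : centralValue red θ₁ e = 1)
    (e2 : centralValue red θ₂ e = 1) {χ : Wr q G → ℂ} (hχ : IsIrreducibleCharacter χ)
    (hv : centralValue red χ (wrF q e) = 1) {f : Wr q G → F} (hf : IsClassFun f)
    {t : Multiplicative (ZMod q)} (ht : t ≠ 1) : centralValue red χ (part f t) = 0 := by
  have _f : Fintype (Wr q G) := Fintype.ofFinite _
  obtain ⟨χ', hχ', hv', hvan⟩ := exists_ind (q := q) red hs h1 h2 hne e1 e2
  have hB := Pool.Agent.Y930.NV.cvh F red (Wr q G) χ hχ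
  have hB' := Pool.Agent.Y930.NV.cvh F red (Wr q G) χ' hχ'
  have hz := part_cl hf t
  have h3 : centralValue red χ' (part f t) = 0 := by
    refine cv_van red fun x hx => hvan x fun h => hx ?_
    unfold part
    rw [if_neg]
    rw [h]
    exact fun h4 => ht h4.symm
  have h4 : centralValue red χ (cpw (part f t) q) = centralValue red χ' (cpw (part f t) q) := by
    refine base_val red hs hχ hχ' hv hv' (cpw_cl hz q) fun x hx => ?_
    refine cpw_supp (rightHom : Wr q G →* Multiplicative (ZMod q)) (t := t) ?_ q x ?_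
    · intro y hy
      unfold part
      rw [if_neg]
      exact hy
    · have h5 : t ^ q = 1 := by
        have h6 := pow_card_eq_one' (x := t)
        rwa [Nat.card_congr Multiplicative.toAdd, Nat.card_zmod] at h6
      rw [h5]
      exact hx
  rw [blk_cpw hB hz, blk_cpw hB' hz, h3, zero_pow hq.out.ne_zero] at h4
  exact pow_eq_zero_iff hq.out.ne_zero |>.1 h4

/-- uniqueness, for blocks with two characters -/
theorem uniq_two [NeZero q] (hs : Sep B e) {θ₁ θ₂ : G → ℂ} (h1 : IsIrreducibleCharacter θ₁)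
    (h2 : IsIrreducibleCharacter θ₂) (hne : θ₁ ≠ θ₂) (e1 : centralValue red θ₁ e = 1)
    (e2 : centralValue red θ₂ e = 1) {χ χ' : Wr q G → ℂ} (hχ : IsIrreducibleCharacter χ)
    (hχ' : IsIrreducibleCharacter χ') (hv : centralValue red χ (wrF q e) = 1)
    (hv' : centralValue red χ' (wrF q e) = 1) {f : Wr q G → F} (hf : IsClassFun f) :
    centralValue red χ f = centralValue red χ' f := by
  have _f : Fintype (Wr q G) := Fintype.ofFinite _
  have hB := Pool.Agent.Y930.NV.cvh F red (Wr q G) χ hχ
  have hB' := Pool.Agent.Y930.NV.cvh F red (Wr q G) χ' hχ'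
  rw [part_sum f, blk_sum hB _ _ fun t => part_cl hf t, blk_sum hB' _ _ fun t => part_cl hf t]
  refine Finset.sum_congr rfl fun t _ => ?_
  by_cases ht : t = 1
  · subst ht
    refine base_val red hs hχ hχ' hv hv' (part_cl hf 1) fun x hx => ?_
    unfold part
    rw [if_neg hx]
  · rw [part_zero red hs h1 h2 hne e1 e2 hχ hv hf ht,
      part_zero red hs h1 h2 hne e1 e2 hχ' hv' hf ht]

/-- the extension of a power -/
theorem exists_char [NeZero q] (hs : Sep B e) {θ : G → ℂ} (h1 : IsIrreducibleCharacter θ)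
    (e1 : centralValue red θ e = 1) :
    ∃ χ : Wr q G → ℂ, IsIrreducibleCharacter χ ∧ centralValue red χ (wrF q e) = 1 ∧
      ∀ n : ZMod q → G, χ (inl n) = ∏ i, θ (n i) := by
  have hE : (bt fun _ : ZMod q => θ) ∈ cstE q G := ⟨θ, toIrr h1, rfl⟩
  have hI := ofIrr (ex_irr (good (q := q) (G := G)) hE)
  refine ⟨_, hI, ?_, fun n => ex_inl good hE n⟩
  rw [val_wrF red hs.1.cl (fun _ => h1) fun y hy hy' =>
    cv_ext red hI (ofIrr (bt_irr fun _ => toIrr h1)) (ex_inl good hE) hy hy']
  exact Finset.prod_eq_one fun i _ => e1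

/-- uniqueness for `q = p`, for blocks with one character -/
theorem uniq_one [NeZero q] [CharP F q] (hs : Sep B e) {θ : G → ℂ}
    (hθ : ∀ θ' : G → ℂ, IsIrreducibleCharacter θ' → centralValue red θ' e = 1 → θ' = θ)
    {χ χ' : Wr q G → ℂ} (hχ : IsIrreducibleCharacter χ)
    (hχ' : IsIrreducibleCharacter χ') (hv : centralValue red χ (wrF q e) = 1)
    (hv' : centralValue red χ' (wrF q e) = 1) (f : Wr q G → F) :
    centralValue red χ f = centralValue red χ' f := by
  have key : ∀ χ : Wr q G → ℂ, IsIrreducibleCharacter χ → centralValue red χ (wrF q e) = 1 →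
      centralValue red χ f = centralValue red (ex (good (q := q)) (bt fun _ => θ)) f := by
    intro χ hχ hv
    obtain ⟨ψ, hψ, h3, h4⟩ := cover red hχ
    have h5 : ψ = fun _ => θ := funext fun i =>
      hθ _ (hψ i) (factors red hs hψ h3 hv i).1
    have hI : IsIrr θ := by
      have := hψ 0
      rw [h5] at this
      exact toIrr this
    have hE : (bt fun _ : ZMod q => θ) ∈ cstE q G := ⟨θ, hI, rfl⟩
    rcases h4 with h4 | ⟨θ₀, l, h6, h7⟩
    · exact (h4 (h5 ▸ hE)).elim
    · have h8 : θ₀ = θ := by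
        have h9 := h6.symm.trans h5
        exact congrFun h9 0
      subst h8
      rw [h7]
      have hroot : ∀ s : Multiplicative (ZMod q), ((l s : ℂˣ) : ℂ) ^ q = 1 := by
        intro s
        have h9 := pow_card_eq_one' (x := s)
        rw [Nat.card_congr Multiplicative.toAdd, Nat.card_zmod] at h9
        have h10 := congrArg (fun u => ((l u : ℂˣ) : ℂ)) h9
        simpa using h10
      have hint : ∀ s : Multiplicative (ZMod q), IsIntegral ℤ ((l s : ℂˣ) : ℂ) := by
        intro s
        refine IsIntegral.of_pow hq.out.pos ?_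
        rw [hroot s]
        exact isIntegral_one
      refine cv_tw red (lam (shiftHom q G) l) (fun x => ?_) (fun x => hint x.right)
        (ofIrr (ex_irr good hE)) ?_ f
      · change redC red ((l x.right : ℂˣ) : ℂ) = 1
        rw [Pool.Agent.Y930.NV.redC_of red (hint _)]
        have h11 : red ⟨((l x.right : ℂˣ) : ℂ), hint _⟩ ^ q = 1 := by
          rw [← map_pow, ← map_one red]
          congr 1
          exact Subtype.ext (hroot _)
        have h12 : (red ⟨((l x.right : ℂˣ) : ℂ), hint _⟩ - 1) ^ q = 0 := by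
          rw [sub_pow_char, h11, one_pow, sub_self]
        exact sub_eq_zero.1 (pow_eq_zero_iff hq.out.ne_zero |>.1 h12)
      · exact ofIrr (tw_irr _ (ex_irr good hE))
  rw [key χ hχ hv, key χ' hχ' hv']

end uniq

section main

variable {p q : ℕ} [hp : Fact p.Prime] [hq : Fact q.Prime] {F : Type} [Field F] [IsAlgClosed F]
  [CharP F p] (red : integralClosure ℤ ℂ →+* F) {G : Type} [Group G] [Finite G]
  {B : (G → F) → F} {e : G → F}

/-- the block has at least two irreducible characters -/
def Two (red : integralClosure ℤ ℂ →+* F) (e : G → F) : Prop :=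
  ∃ θ₁ θ₂ : G → ℂ, IsIrreducibleCharacter θ₁ ∧ IsIrreducibleCharacter θ₂ ∧ θ₁ ≠ θ₂ ∧
    centralValue red θ₁ e = 1 ∧ centralValue red θ₂ e = 1

theorem exists_theta (hs : Sep B e) (hB : IsBlock B) :
    ∃ θ : G → ℂ, IsIrreducibleCharacter θ ∧ centralValue red θ e = 1 := by
  have _f : Fintype G := Fintype.ofFinite _
  obtain ⟨θ, h1, h2⟩ := Pool.Agent.N85.TG.Exc.core red hB
  exact ⟨θ, h1, (h2 e hs.1.cl).trans hs.2.1⟩

include hp in
/-- **the blocks of `G ≀ C_q` over `e ⊗ ⋯ ⊗ e`** -/
theorem uniq [NeZero q] (hs : Sep B e) (h : q = p ∨ Two red e) {χ χ' : Wr q G → ℂ}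
    (hχ : IsIrreducibleCharacter χ)
    (hχ' : IsIrreducibleCharacter χ') (hv : centralValue red χ (wrF q e) = 1)
    (hv' : centralValue red χ' (wrF q e) = 1) {f : Wr q G → F} (hf : IsClassFun f) :
    centralValue red χ f = centralValue red χ' f := by
  have _f : Fintype G := Fintype.ofFinite _
  by_cases h2 : Two red e
  · obtain ⟨θ₁, θ₂, a1, a2, a3, a4, a5⟩ := h2
    exact uniq_two red hs a1 a2 a3 a4 a5 hχ hχ' hv hv' hf
  · have hqp := h.resolve_right h2
    subst hqp
    obtain ⟨ψ, hψ, h3, -⟩ := cover red hχ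
    refine uniq_one red hs (θ := ψ 0) (fun θ' h4 h5 => ?_) hχ hχ' hv hv' f
    by_contra hne
    exact h2 ⟨θ', ψ 0, h4, hψ 0, hne, h5, (factors red hs hψ h3 hv 0).1⟩

include hp in
/-- **the block of `G ≀ C_q` over a block of `G`** -/
theorem exists_sep_wr [NeZero q] (hs : Sep B e) (hB : IsBlock B) (h : q = p ∨ Two red e) :
    ∃ B' : (Wr q G → F) → F, IsBlock B' ∧ Sep B' (wrF q e) := by
  have _f : Fintype G := Fintype.ofFinite _
  have _f2 : Fintype (Wr q G) := Fintype.ofFinite _
  obtain ⟨θ, h1, h2⟩ := exists_theta red hs hB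
  obtain ⟨χ, h3, h4, -⟩ := exists_char (q := q) red hs h1 h2
  have hb := Pool.Agent.Y930.NV.cvh F red (Wr q G) χ h3
  refine ⟨_, hb, Pool.Agent.U259.WD.idem_wr (p := p) red hs.1, h4, fun B'' hB'' h5 f hf => ?_⟩
  obtain ⟨χ', h6, h7⟩ := Pool.Agent.N85.TG.Exc.core red hB''
  rw [← h7 f hf]
  refine uniq red hs h h3 h6 h4 ?_ hf
  rw [h7 _ (wrF_inZ q G hs.1.cl).conj]
  exact h5

/-- two characters again -/
theorem two_wr [NeZero q] (hs : Sep B e) (h : Two red e) : Two red (wrF q e) := by
  have _f : Fintype G := Fintype.ofFinite _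
  obtain ⟨θ₁, θ₂, a1, a2, a3, a4, a5⟩ := h
  obtain ⟨χ, h3, h4, h5⟩ := exists_char (q := q) red hs a1 a4
  obtain ⟨χ', h6, h7, h8⟩ := exists_char (q := q) red hs a2 a5
  refine ⟨χ, χ', h3, h6, fun h => a3 ?_, h4, h7⟩
  have h9 : bt (fun _ : ZMod q => θ₁) = bt (fun _ : ZMod q => θ₂) := by
    funext n
    have h10 := h5 n
    rw [h, h8 n] at h10
    exact h10.symm
  exact congrFun (bt_inj (fun _ => toIrr a1) (fun _ => toIrr a2) h9) 0

end main

end Pool.Agent.U259.UB
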