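import Pool.Agent.U259.UB.Cov

/-!
# Central characters of direct powers and direct products
-/

set_option autoImplicit false
set_option linter.unusedSectionVars false

open scoped Classical BigOperators

noncomputable section

namespace Pool.Agent.U259.UB

open Pool.Agent.Y63.NV
open Pool.Agent.Y63.AWC (IsIrreducibleCharacter)
open Pool.Agent.N85.WM.Wpi (toIrr ofIrr cv_tens)
open Pool.Agent.N85.WM (BEq cl_add cl_smul)
open Pool.Agent.H254R3.IN (IsIrr IsCl)
open Pool.Agent.K3h3.KB (sInd bt sum_sd sum_sd' sInd_mk sInd_one sInd_inl)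
open Pool.Agent.Y930.NV (ind Cf Cf_ind Cf_out mk_out)

section lin

variable {F : Type} [Field F] {J : Type} [Group J]

theorem cl_zero : IsClassFun (0 : J → F) := fun _ _ => rfl

theorem cl_sum {ι : Type} (T : Finset ι) (f : ι → J → F) (hf : ∀ i, IsClassFun (f i)) :
    IsClassFun (∑ i ∈ T, f i) := by
  induction T using Finset.induction_on with
  | empty =>
    rw [Finset.sum_empty]
    exact cl_zero
  | insert a T ha ih =>
    rw [Finset.sum_insert ha]
    exact cl_add (hf a) ih

theorem blk_zero {B : (J → F) → F} (hB : IsBlock B) : B 0 = 0 := by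
  have h := hB.smul 0 0 cl_zero
  rwa [zero_smul, zero_mul] at h

theorem blk_sum {B : (J → F) → F} (hB : IsBlock B) {ι : Type} (T : Finset ι) (f : ι → J → F)
    (hf : ∀ i, IsClassFun (f i)) : B (∑ i ∈ T, f i) = ∑ i ∈ T, B (f i) := by
  induction T using Finset.induction_on with
  | empty =>
    rw [Finset.sum_empty, Finset.sum_empty, blk_zero hB]
  | insert a T ha ih =>
    rw [Finset.sum_insert ha, Finset.sum_insert ha, hB.add _ _ (hf a) (cl_sum T f hf), ih]

end lin

section pi

variable {F : Type} [Field F] {S G : Type} [Fintype S] [Group G] [Fintype G]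

/-- the products of indicator functions -/
def pind (F : Type) [Field F] {S G : Type} [Fintype S] [Group G] [Fintype G]
    (K : S → ConjClasses G) :
    (S → G) → F := fun x => ∏ i, ind F (K i) (x i)

theorem cl_pind (K : S → ConjClasses G) : IsClassFun (pind F K) := by
  intro g x
  unfold pind
  exact Finset.prod_congr rfl fun i _ => Cf_ind F (K i) (g i) (x i)

theorem pi_expand [Fintype (ConjClasses G)] {g : (S → G) → F} (hg : IsClassFun g) :
    g = ∑ K : S → ConjClasses G, g (fun i => (K i).out) • pind F K := by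
  funext x
  rw [Finset.sum_apply, Finset.sum_eq_single (fun i => ConjClasses.mk (x i))]
  · rw [Pi.smul_apply, smul_eq_mul]
    have h1 : pind F (fun i => ConjClasses.mk (x i)) x = 1 := by
      unfold pind
      refine Finset.prod_eq_one fun i _ => ?_
      unfold ind
      rw [if_pos rfl]
    rw [h1, mul_one]
    have h2 : ∀ i, ∃ c : G, c * x i * c⁻¹ = (ConjClasses.mk (x i)).out := by
      intro i
      have h3 : ConjClasses.mk (x i) = ConjClasses.mk (ConjClasses.mk (x i)).out := by
        rw [mk_out]
      rw [ConjClasses.mk_eq_mk_iff_isConj, isConj_iff] at h3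
      exact h3
    choose c hc using h2
    rw [← hg c x]
    congr 1
    funext i
    exact hc i
  · intro K _ hK
    rw [Pi.smul_apply, smul_eq_mul]
    have h1 : pind F K x = 0 := by
      unfold pind
      obtain ⟨i, hi⟩ : ∃ i, K i ≠ ConjClasses.mk (x i) := by
        by_contra h
        push Not at h
        exact hK (funext h)
      refine Finset.prod_eq_zero (Finset.mem_univ i) ?_
      unfold ind
      rw [if_neg fun h => hi h.symm]
    rw [h1, mul_zero]
  · intro h
    exact absurd (Finset.mem_univ _) h

theorem cv_bt_congr (red : integralClosure ℤ ℂ →+* F) {θ θ' : S → G → ℂ}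
    (h : ∀ i, IsIrreducibleCharacter (θ i)) (h' : ∀ i, IsIrreducibleCharacter (θ' i))
    (he : ∀ i, ∀ f : G → F, IsClassFun f → centralValue red (θ i) f = centralValue red (θ' i) f)
    {g : (S → G) → F} (hg : IsClassFun g) :
    centralValue red (bt θ) g = centralValue red (bt θ') g := by
  have _i : Fintype (ConjClasses G) := Fintype.ofFinite _
  have hI : IsIrreducibleCharacter (bt θ) := ofIrr (Pool.Agent.K3h3.KB.bt_irr fun i => toIrr (h i))
  have hI' : IsIrreducibleCharacter (bt θ') :=
    ofIrr (Pool.Agent.K3h3.KB.bt_irr fun i => toIrr (h' i))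
  have hB := Pool.Agent.Y930.NV.cvh F red (S → G) _ hI
  have hB' := Pool.Agent.Y930.NV.cvh F red (S → G) _ hI'
  rw [pi_expand hg, blk_sum hB _ _ fun K => cl_smul _ (cl_pind K),
    blk_sum hB' _ _ fun K => cl_smul _ (cl_pind K)]
  refine Finset.sum_congr rfl fun K _ => ?_
  rw [hB.smul _ _ (cl_pind K), hB'.smul _ _ (cl_pind K)]
  congr 1
  have e1 := cv_tens red (K := fun _ : S => G) h (fun i => ind F (K i)) (fun i => Cf_ind F (K i))
  have e2 := cv_tens red (K := fun _ : S => G) h' (fun i => ind F (K i)) (fun i => Cf_ind F (K i))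
  have e3 : ∏ i, centralValue red (θ i) (ind F (K i)) =
      ∏ i, centralValue red (θ' i) (ind F (K i)) :=
    Finset.prod_congr rfl fun i _ => he i _ (Cf_ind F (K i))
  rw [e3, ← e2] at e1
  exact e1

end pi

section prod

variable {F : Type} [Field F] {A C : Type} [Group A] [Group C] [Fintype A] [Fintype C]

/-- the products of two indicator functions -/
def dind (F : Type) [Field F] {A C : Type} [Group A] [Group C] [Fintype A] [Fintype C]
    (K : ConjClasses A) (L : ConjClasses C) : A × C → F := fun x => ind F K x.1 * ind F L x.2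

theorem cl_mulf {f : A → F} {g : C → F} (hf : IsClassFun f) (hg : IsClassFun g) :
    IsClassFun (fun x : A × C => f x.1 * g x.2) := fun a x => by
  change f (a.1 * x.1 * a.1⁻¹) * g (a.2 * x.2 * a.2⁻¹) = _
  rw [hf, hg]

theorem cl_dind (K : ConjClasses A) (L : ConjClasses C) : IsClassFun (dind F K L) :=
  cl_mulf (Cf_ind F K) (Cf_ind F L)

theorem prod_expand [Fintype (ConjClasses A)] [Fintype (ConjClasses C)] {g : A × C → F}
    (hg : IsClassFun g) :
    g = ∑ K : ConjClasses A × ConjClasses C, g (K.1.out, K.2.out) • dind F K.1 K.2 := by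
  funext x
  rw [Finset.sum_apply, Finset.sum_eq_single (ConjClasses.mk x.1, ConjClasses.mk x.2)]
  · rw [Pi.smul_apply, smul_eq_mul]
    have h1 : dind F (ConjClasses.mk x.1) (ConjClasses.mk x.2) x = 1 := by
      unfold dind ind
      rw [if_pos rfl, if_pos rfl, mul_one]
    rw [h1, mul_one]
    have h3 : ConjClasses.mk x.1 = ConjClasses.mk (ConjClasses.mk x.1).out := by rw [mk_out]
    have h4 : ConjClasses.mk x.2 = ConjClasses.mk (ConjClasses.mk x.2).out := by rw [mk_out]
    rw [ConjClasses.mk_eq_mk_iff_isConj, isConj_iff] at h3 h4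
    obtain ⟨c, hc⟩ := h3
    obtain ⟨d, hd⟩ := h4
    rw [← hg (c, d) x]
    congr 1
    exact Prod.ext hc hd
  · intro K _ hK
    rw [Pi.smul_apply, smul_eq_mul]
    have h1 : dind F K.1 K.2 x = 0 := by
      unfold dind ind
      by_cases h2 : ConjClasses.mk x.1 = K.1
      · by_cases h3 : ConjClasses.mk x.2 = K.2
        · exact (hK (Prod.ext h2.symm h3.symm)).elim
        · rw [if_neg h3, mul_zero]
      · rw [if_neg h2, zero_mul]
    rw [h1, mul_zero]
  · intro h
    exact absurd (Finset.mem_univ _) h

end prod

end Pool.Agent.U259.UB
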