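import Pool.Agent.U259.UB.Main

/-!
# Blocks of direct products
-/

set_option autoImplicit false
set_option linter.unusedSectionVars false

open scoped Classical BigOperators

noncomputable section

namespace Pool.Agent.U259.UB

open Pool.Agent.Y63.NV
open Pool.Agent.Y63.AWC (IsIrreducibleCharacter)
open Pool.Agent.N85.WM (BEq IsIdem cl_add cl_smul)
open Pool.Agent.Y930.NV (ind Cf_ind)
open Pool.Agent.Q99.AS (ten_cover ten_irr)
open Pool.Agent.N20.KB (cv_ten)
open Pool.Agent.N20.DI (HasDef)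
open Pool.Agent.U259.WP (Sep NoDz)

variable {p : ℕ} [hp : Fact p.Prime] {F : Type} [Field F] [IsAlgClosed F]
  [CharP F p] (red : integralClosure ℤ ℂ →+* F) {A C : Type} [Group A] [Group C] [Finite A]
  [Finite C] {B : (A → F) → F} {e : A → F} {B' : (C → F) → F} {e' : C → F}

include red in
/-- **the block of a direct product** -/
theorem sep_prod (h : Sep B e) (hB : IsBlock B) (h' : Sep B' e') (hB' : IsBlock B') :
    ∃ B'' : (A × C → F) → F, IsBlock B'' ∧ Sep B'' (fun x : A × C => e x.1 * e' x.2) := by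
  have _f : Fintype A := Fintype.ofFinite _
  have _f2 : Fintype C := Fintype.ofFinite _
  have _f3 : Fintype (ConjClasses A) := Fintype.ofFinite _
  have _f4 : Fintype (ConjClasses C) := Fintype.ofFinite _
  have hcl := cl_mulf h.1.cl h'.1.cl
  obtain ⟨θ, h1, h2⟩ := exists_theta red h hB
  obtain ⟨ψ, h3, h4⟩ := exists_theta red h' hB'
  have hI : IsIrreducibleCharacter (Pool.Agent.Q99.AS.ten θ ψ) := ten_irr h1 h3
  have hb := Pool.Agent.Y930.NV.cvh F red (A × C) _ hI
  have hv : ∀ {θ : A → ℂ} {ψ : C → ℂ}, IsIrreducibleCharacter θ → IsIrreducibleCharacter ψ →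
      centralValue red (Pool.Agent.Q99.AS.ten θ ψ) (fun x : A × C => e x.1 * e' x.2) =
        centralValue red θ e * centralValue red ψ e' := fun h5 h6 =>
    cv_ten red h5 h6 h.1.cl h'.1.cl
  have hval : ∀ {θ : A → ℂ} {ψ : C → ℂ}, IsIrreducibleCharacter θ → IsIrreducibleCharacter ψ →
      (centralValue red θ e * centralValue red ψ e' = 0 ∨
        (centralValue red θ e = 1 ∧ centralValue red ψ e' = 1)) := by
    intro θ ψ h5 h6
    rcases h.1.val _ (Pool.Agent.Y930.NV.cvh F red A θ h5) with h7 | h7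
    · left
      rw [h7, zero_mul]
    · rcases h'.1.val _ (Pool.Agent.Y930.NV.cvh F red C ψ h6) with h8 | h8
      · left
        rw [h8, mul_zero]
      · exact Or.inr ⟨h7, h8⟩
  refine ⟨_, hb, ⟨hcl, fun β hβ => ?_⟩, ?_, fun β hβ h5 f hf => ?_⟩
  · obtain ⟨χ, h6, h7⟩ := Pool.Agent.N85.TG.Exc.core red hβ
    obtain ⟨θ', ψ', h8, h9, rfl⟩ := ten_cover h6
    rw [← h7 _ hcl, hv h8 h9]
    rcases hval h8 h9 with h10 | ⟨h10, h11⟩
    · exact Or.inl h10
    · right
      rw [h10, h11, one_mul]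
  · rw [hv h1 h3, h2, h4, one_mul]
  · obtain ⟨χ, h6, h7⟩ := Pool.Agent.N85.TG.Exc.core red hβ
    obtain ⟨θ', ψ', h8, h9, rfl⟩ := ten_cover h6
    rw [← h7 _ hcl, hv h8 h9] at h5
    have h10 : centralValue red θ' e = 1 ∧ centralValue red ψ' e' = 1 := by
      rcases hval h8 h9 with h10 | h10
      · rw [h10] at h5
        exact absurd h5 zero_ne_one
      · exact h10
    rw [← h7 f hf]
    have hb' := Pool.Agent.Y930.NV.cvh F red (A × C) _ h6
    have e1 : ∀ g : A → F, IsClassFun g → centralValue red θ g = centralValue red θ' g := by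
      intro g hg
      rw [← h.2.2 _ (Pool.Agent.Y930.NV.cvh F red A θ h1) h2 g hg,
        ← h.2.2 _ (Pool.Agent.Y930.NV.cvh F red A θ' h8) h10.1 g hg]
    have e2 : ∀ g : C → F, IsClassFun g → centralValue red ψ g = centralValue red ψ' g := by
      intro g hg
      rw [← h'.2.2 _ (Pool.Agent.Y930.NV.cvh F red C ψ h3) h4 g hg,
        ← h'.2.2 _ (Pool.Agent.Y930.NV.cvh F red C ψ' h9) h10.2 g hg]
    have hK : ∀ K : ConjClasses A × ConjClasses C,
        IsClassFun (f (K.1.out, K.2.out) • dind F K.1 K.2) := fun K => cl_smul _ (cl_dind K.1 K.2)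
    rw [prod_expand hf, blk_sum hb _ _ hK, blk_sum hb' _ _ hK]
    refine Finset.sum_congr rfl fun K _ => ?_
    rw [hb.smul _ _ (cl_dind K.1 K.2), hb'.smul _ _ (cl_dind K.1 K.2)]
    congr 1
    have e3 := cv_ten red h1 h3 (Cf_ind F K.1) (Cf_ind F K.2)
    have e4 := cv_ten red h8 h9 (Cf_ind F K.1) (Cf_ind F K.2)
    rw [e1 _ (Cf_ind F K.1), e2 _ (Cf_ind F K.2), ← e4] at e3
    exact e3

include hp in
/-- no characters of defect zero -/
theorem noDz_prod (he : IsIdem e) (he' : IsIdem e') (h : NoDz p red e) :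
    NoDz p red (fun x : A × C => e x.1 * e' x.2) := by
  have _f : Fintype A := Fintype.ofFinite _
  have _f2 : Fintype C := Fintype.ofFinite _
  intro χ hχ hd hv
  obtain ⟨θ, ψ, h1, h2, rfl⟩ := ten_cover hχ
  rw [cv_ten red h1 h2 he.cl he'.cl] at hv
  have h3 : centralValue red θ e = 1 := by
    rcases he.val _ (Pool.Agent.Y930.NV.cvh F red A θ h1) with h4 | h4
    · rw [h4, zero_mul] at hv
      exact absurd hv zero_ne_one
    · exact h4
  refine h θ h1 ?_ h3
  obtain ⟨n, hn, hn2⟩ := hd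
  obtain ⟨a, ha, ha0, hale⟩ := Pool.Agent.U259.WP.dg_le (p := p) h1
  obtain ⟨b, hb, hb0, hble⟩ := Pool.Agent.U259.WP.dg_le (p := p) h2
  have h5 : (n : ℂ) = ((a * b : ℕ) : ℂ) := by
    rw [← hn]
    push_cast
    rw [← ha, ← hb]
    rfl
  have h6 : n = a * b := by exact_mod_cast h5
  rw [h6, Nat.factorization_mul ha0 hb0, Nat.card_prod,
    Nat.factorization_mul Nat.card_pos.ne' Nat.card_pos.ne', Finsupp.add_apply,
    Finsupp.add_apply] at hn2
  exact ⟨a, ha, by omega⟩

end Pool.Agent.U259.UB
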