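import Pool.Agent.U259.UB.Pi

/-!
# Blocks of `G ≀ C_q` over a block of `G`
-/

set_option autoImplicit false
set_option linter.unusedSectionVars false

open scoped Classical BigOperators

noncomputable section

namespace Pool.Agent.U259.UB

open Pool.Agent.Y63.NV
open Pool.Agent.Y63.AWC (IsIrreducibleCharacter)
open Pool.Agent.N85.WM (Wr shiftHom wrF wrF_inZ BEq IsIdem cl_add cl_smul)
open Pool.Agent.N85.WM.Wpi (toIrr ofIrr cv_tens)
open Pool.Agent.H254R3.IN (IsIrr IsCl)
open Pool.Agent.K3h3.KB (sInd bt sInd_mk sInd_one sInd_inl sInd_irr bt_irr bt_inj)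
open Pool.Agent.K3h3.MK (Good good_wr cover_sd ex ex_irr ex_inl lam rAct cst bt_rAct)
open Pool.Agent.Y62 (tw tw_irr)
open Pool.Agent.Y930.NV (om R redC_sum redC_mul redC_intCast redC_zero ind Cf Cf_ind Cf_out mk_out
  ind_cast)
open Pool.Agent.U259.WP (Sep)
open SemidirectProduct

section cover

variable {q : ℕ} [hq : Fact q.Prime] {G : Type} [Group G] [Fintype G]

theorem shift_eq (q : ℕ) (G : Type) [Group G] : shiftHom q G = rAct G (Multiplicative (ZMod q)) := by
  refine MonoidHom.ext fun t => MulEquiv.ext fun x => funext fun i => ?_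
  change x (i - Multiplicative.toAdd t) = x (-(Multiplicative.toAdd t) + i)
  congr 1
  ring

theorem bt_shift [NeZero q] (ψ : ZMod q → G → ℂ) (t : Multiplicative (ZMod q)) :
    (fun n => bt ψ (shiftHom q G t n)) = bt (fun i => ψ (t.toAdd + i)) := by
  funext n
  unfold bt
  refine Fintype.prod_equiv (Equiv.addRight (-(Multiplicative.toAdd t))) _ _ fun i => ?_
  change ψ i (n (i - Multiplicative.toAdd t)) = ψ (Multiplicative.toAdd t +
    (i + -(Multiplicative.toAdd t))) (n (i + -(Multiplicative.toAdd t)))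
  rw [← sub_eq_add_neg, add_sub_cancel]

/-- the invariant characters of the base group -/
def cstE (q : ℕ) [NeZero q] (G : Type) [Group G] : Set ((ZMod q → G) → ℂ) :=
  {χ | ∃ θ : G → ℂ, IsIrr θ ∧ χ = bt fun _ => θ}

theorem bt_fin {I G : Type} (i1 i2 : Fintype I) (ψ : I → G → ℂ) :
    @bt I G i1 ψ = @bt I G i2 ψ := by
  rw [Subsingleton.elim i1 i2]

theorem cstE_eq [NeZero q] : cstE q G = cst G (Multiplicative (ZMod q)) := by
  ext χ
  constructor
  · rintro ⟨θ, hθ, rfl⟩
    exact ⟨θ, hθ, bt_fin _ _ _⟩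
  · rintro ⟨θ, hθ, rfl⟩
    exact ⟨θ, hθ, bt_fin _ _ _⟩

theorem good [NeZero q] : Good (shiftHom q G) (cstE q G) := by
  rw [shift_eq, cstE_eq]
  have h : (Nat.card (Multiplicative (ZMod q))).Prime := by
    rw [Nat.card_congr Multiplicative.toAdd, Nat.card_zmod]
    exact hq.out
  exact good_wr (G := G) (S := Multiplicative (ZMod q)) h

variable {F : Type} [Field F] (red : integralClosure ℤ ℂ →+* F)

/-- the characters of `G ≀ C_q` -/
theorem cover [NeZero q] {χ : Wr q G → ℂ} (hχ : IsIrreducibleCharacter χ) :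
    ∃ θ : ZMod q → G → ℂ, (∀ i, IsIrreducibleCharacter (θ i)) ∧
      (∀ y : Wr q G → F, IsClassFun y → (∀ x : Wr q G, x.right ≠ 1 → y x = 0) →
        centralValue red χ y = centralValue red (bt θ) (fun n => y (inl n))) ∧
      (bt θ ∉ cstE q G ∨ ∃ (θ₀ : G → ℂ) (l : Multiplicative (ZMod q) →* ℂˣ),
        (θ = fun _ => θ₀) ∧ χ = tw (lam (shiftHom q G) l) (ex good (bt fun _ => θ₀))) := by
  rcases cover_sd (good (q := q) (G := G)) (toIrr hχ) with ⟨Θ, h1, h2, h3⟩ | ⟨Θ, ⟨θ, hθ, h1⟩, l, h2⟩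
  · obtain ⟨ψ, h4, rfl⟩ := Pool.Agent.K3h3.MK.cover_pi h1
    refine ⟨ψ, fun i => ofIrr (h4 i), fun y hy _ => ?_, Or.inl h2⟩
    rw [← h3]
    exact cv_sInd red (ofIrr h1) (ofIrr (h3.symm ▸ toIrr hχ)) hy
  · subst h1
    refine ⟨fun _ => θ, fun _ => ofIrr hθ, fun y hy hs => ?_, Or.inr ⟨θ, l, rfl, h2.symm⟩⟩
    refine cv_ext red hχ (ofIrr (bt_irr fun _ => hθ)) (fun n => ?_) hy hs
    rw [← h2, Pool.Agent.K3h3.MK.tw_inl, ex_inl good ⟨θ, hθ, rfl⟩]

/-- the value at `e ⊗ ⋯ ⊗ e` -/
theorem val_wrF [NeZero q] {e : G → F} (he : IsClassFun e) {χ : Wr q G → ℂ}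
    {θ : ZMod q → G → ℂ} (hθ : ∀ i, IsIrreducibleCharacter (θ i))
    (h : ∀ y : Wr q G → F, IsClassFun y → (∀ x : Wr q G, x.right ≠ 1 → y x = 0) →
        centralValue red χ y = centralValue red (bt θ) (fun n => y (inl n))) :
    centralValue red χ (wrF q e) = ∏ i, centralValue red (θ i) e := by
  rw [h _ (wrF_inZ q G he).conj (fun x hx => by
    unfold wrF
    rw [if_neg hx])]
  have h5 : (fun x : ZMod q → G => wrF q e (inl x : Wr q G)) = fun x => ∏ i, e (x i) := by
    funext x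
    unfold wrF
    rw [if_pos (by rfl)]
    rfl
  rw [h5]
  exact cv_tens red (K := fun _ : ZMod q => G) hθ (fun _ => e) (fun _ => he)

variable {B : (G → F) → F} {e : G → F}

/-- the factors of the characters over `e ⊗ ⋯ ⊗ e` -/
theorem factors [NeZero q] (hs : Sep B e) {χ : Wr q G → ℂ}
    {θ : ZMod q → G → ℂ} (hθ : ∀ i, IsIrreducibleCharacter (θ i))
    (h : ∀ y : Wr q G → F, IsClassFun y → (∀ x : Wr q G, x.right ≠ 1 → y x = 0) →
        centralValue red χ y = centralValue red (bt θ) (fun n => y (inl n)))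
    (h1 : centralValue red χ (wrF q e) = 1) (i : ZMod q) :
    centralValue red (θ i) e = 1 ∧
      ∀ f : G → F, IsClassFun f → centralValue red (θ i) f = B f := by
  rw [val_wrF red hs.1.cl hθ h] at h1
  have hb := Pool.Agent.Y930.NV.cvh F red G (θ i) (hθ i)
  have h2 : centralValue red (θ i) e = 1 := by
    refine (hs.1.val _ hb).resolve_left fun h0 => ?_
    rw [Finset.prod_eq_zero (Finset.mem_univ i) h0] at h1
    exact zero_ne_one h1
  exact ⟨h2, fun f hf => (hs.2.2 _ hb h2 f hf).symm⟩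

/-- the values at the class functions supported on the base group -/
theorem base_val [NeZero q] (hs : Sep B e) {χ χ' : Wr q G → ℂ} (hχ : IsIrreducibleCharacter χ)
    (hχ' : IsIrreducibleCharacter χ') (h1 : centralValue red χ (wrF q e) = 1)
    (h2 : centralValue red χ' (wrF q e) = 1) {y : Wr q G → F} (hy : IsClassFun y)
    (hy' : ∀ x : Wr q G, x.right ≠ 1 → y x = 0) :
    centralValue red χ y = centralValue red χ' y := by
  obtain ⟨θ, hθ, h3, -⟩ := cover red hχ
  obtain ⟨θ', hθ', h4, -⟩ := cover red hχ'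
  rw [h3 y hy hy', h4 y hy hy']
  refine cv_bt_congr red hθ hθ' (fun i f hf => ?_) (fun g x => ?_)
  · rw [(factors red hs hθ h3 h1 i).2 f hf, (factors red hs hθ' h4 h2 i).2 f hf]
  · have := hy (inl g) (inl x)
    rw [← map_mul, ← map_inv, ← map_mul] at this
    exact this

/-- an induced character over `e ⊗ ⋯ ⊗ e` -/
theorem exists_ind [NeZero q] (hs : Sep B e) {θ₁ θ₂ : G → ℂ} (h1 : IsIrreducibleCharacter θ₁)
    (h2 : IsIrreducibleCharacter θ₂) (hne : θ₁ ≠ θ₂) (e1 : centralValue red θ₁ e = 1)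
    (e2 : centralValue red θ₂ e = 1) :
    ∃ χ : Wr q G → ℂ, IsIrreducibleCharacter χ ∧ centralValue red χ (wrF q e) = 1 ∧
      ∀ x : Wr q G, x.right ≠ 1 → χ x = 0 := by
  let ψ : ZMod q → G → ℂ := fun i => if i = 0 then θ₁ else θ₂
  have hψ : ∀ i, IsIrreducibleCharacter (ψ i) := by
    intro i
    by_cases h : i = 0
    · simp only [ψ, h, if_true]
      exact h1
    · simp only [ψ, h, if_false]
      exact h2
  have hb : IsIrr (bt ψ) := bt_irr fun i => toIrr (hψ i)
  have hI : IsIrr (sInd (shiftHom q G) (bt ψ)) := by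
    refine sInd_irr hb fun t ht h => ?_
    rw [bt_shift] at h
    have h3 := bt_inj (fun i => toIrr (hψ i)) (fun i => toIrr (hψ _)) h
    have h4 := congrFun h3 0
    have h5 : t.toAdd + 0 ≠ 0 := by
      rw [add_zero]
      exact fun h6 => ht (Multiplicative.toAdd.injective h6)
    simp only [ψ, if_true, h5, if_false] at h4
    exact hne h4
  refine ⟨_, ofIrr hI, ?_, fun x hx => ?_⟩
  · rw [val_wrF red hs.1.cl hψ fun y hy _ => cv_sInd red (ofIrr hb) (ofIrr hI) hy]
    refine Finset.prod_eq_one fun i _ => ?_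
    by_cases h : i = 0
    · simp only [ψ, h, if_true]
      exact e1
    · simp only [ψ, h, if_false]
      exact e2
  · unfold sInd
    rw [if_neg hx]

end cover

end Pool.Agent.U259.UB
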